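import Mathlib
import Pool.Agent.Results.MP_a65550_al.BipIdentities

/-!
# A finite ortholattice that embeds into no bipartition lattice

The ortholattice `Glue K` has 24 elements: the lattice `K` with eleven elements, the dual of `K`, a
new bottom and a new top. The lattice `K` fails the lattice identity which holds in `Bip V` for
every finite set `V` (`MP_a65550_al.BipIdentities`). So `Glue K` does not embed into `Bip V`, not even
as a lattice; it is not even a lattice homomorphic image of a sublattice of a product of such
lattices.
-/

namespace Pool.Agent.Results.MP_35d0eb_al.NotEmbeddable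

open Pool.Agent.Results.MP_a65550_al.BipIdentities

/-- A map preserving joins and meets commutes with the evaluation of lattice terms. -/
theorem eval_map {L M : Type*} [Lattice L] [Lattice M] (f : L → M)
    (hsup : ∀ x y, f (x ⊔ y) = f x ⊔ f y) (hinf : ∀ x y, f (x ⊓ y) = f x ⊓ f y)
    (v : ℕ → L) (s : LatTerm) : s.eval (fun i => f (v i)) = f (s.eval v) := by
  induction s with
  | var i => rfl
  | sup s t hs ht => simp only [LatTerm.eval, hs, ht, hsup]
  | inf s t hs ht => simp only [LatTerm.eval, hs, ht, hinf]

/-- The identity fails in `Glue K`. -/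
theorem glue_fails : ¬ LatHolds (Glue K) lhs rhs := by
  intro h
  have h1 := h fun i => Glue.left (kval i)
  have h2 : (Glue.left (lhs.eval kval) : Glue K) = Glue.left (rhs.eval kval) :=
    (Glue.eval_left kval lhs).symm.trans (h1.trans (Glue.eval_left kval rhs))
  exact K_fails (Glue.left.inj h2)

/-- The elements of `Glue L`, numbered. -/
def glueEquiv (L : Type*) : Glue L ≃ Option (Option (L ⊕ L)) where
  toFun x := match x with
    | .bot => none
    | .top => some none
    | .left x => some (some (.inl x))
    | .right x => some (some (.inr x))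
  invFun x := match x with
    | none => .bot
    | some none => .top
    | some (some (.inl x)) => .left x
    | some (some (.inr x)) => .right x
  left_inv x := by cases x <;> rfl
  right_inv x := by
    rcases x with _ | _ | x | x <;> rfl

/-- The elements of `K`, numbered. -/
def kEquiv : K ≃ Fin 11 where
  toFun x := x.val
  invFun i := ⟨i⟩
  left_inv _ := rfl
  right_inv _ := rfl

theorem card_glue : Nat.card (Glue K) = 24 := by
  rw [Nat.card_congr (glueEquiv K)]
  have h : Fintype K := Fintype.ofEquiv _ kEquiv.symm
  have h2 : Fintype.card K = 11 := by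
    rw [Fintype.card_congr kEquiv]
    rfl
  rw [Nat.card_eq_fintype_card, Fintype.card_option, Fintype.card_option, Fintype.card_sum, h2]

/-- **The answer to Q1 is no.** There is an ortholattice with 24 elements which has no
embedding into `Bip (Fin n)` for any `n`; there is not even an injective map into `Bip V`, `V` finite,
that preserves joins and meets, and the ortholattice is not an image, under a map that
preserves joins and meets, of a sublattice of a product of such lattices `Bip V`. -/
theorem result :
    ∃ (L : Type) (_ : Ortholattice L), Nat.card L = 24 ∧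
      (∀ (n : ℕ) (f : L → Bip (Fin n)), Function.Injective f →
        (∀ x y, f (x ⊔ y) = f x ⊔ f y) → (∀ x y, f (x ⊓ y) = f x ⊓ f y) →
        (∀ x, f xᶜ = (f x)ᶜ) → False) ∧
      (∀ (V : Type) [Finite V] (f : L → Bip V), Function.Injective f →
        (∀ x y, f (x ⊔ y) = f x ⊔ f y) → (∀ x y, f (x ⊓ y) = f x ⊓ f y) → False) ∧
      (∀ (I : Type) (V : I → Type) [∀ i, Finite (V i)] (S : Sublattice (∀ i, Bip (V i)))
        (f : S → L), Function.Surjective f →
        (∀ x y, f (x ⊔ y) = f x ⊔ f y) → (∀ x y, f (x ⊓ y) = f x ⊓ f y) → False) := by
  have key : ∀ (V : Type) [Finite V] (f : Glue K → Bip V), Function.Injective f →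
        (∀ x y, f (x ⊔ y) = f x ⊔ f y) → (∀ x y, f (x ⊓ y) = f x ⊓ f y) → False := by
    intro V _ f hf hsup hinf
    refine glue_fails fun v => hf ?_
    rw [← eval_map f hsup hinf, ← eval_map f hsup hinf]
    exact holds_bip V fun i => f (v i)
  refine ⟨Glue K, inferInstance, card_glue, fun n f hf h1 h2 _ => key (Fin n) f hf h1 h2, key, ?_⟩
  intro I V _ S f hf hsup hinf
  refine glue_fails fun v => ?_
  choose g hg using hf
  have h1 : v = fun i => f (g (v i)) := by
    funext i
    exact (hg (v i)).symm
  rw [h1, eval_map f hsup hinf (fun i => g (v i)), eval_map f hsup hinf (fun i => g (v i))]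
  congr 1
  apply Subtype.ext
  have h2 : ∀ s : LatTerm, (s.eval (fun i => g (v i)) : S).1 = s.eval (fun i => (g (v i)).1) :=
    fun s => (eval_map (fun x : S => x.1) (fun _ _ => rfl) (fun _ _ => rfl)
      (fun i => g (v i)) s).symm
  rw [h2, h2]
  funext j
  have h3 : ∀ s : LatTerm, s.eval (fun i => (g (v i)).1) j = s.eval (fun i => (g (v i)).1 j) :=
    fun s => (eval_map (fun x : (∀ i, Bip (V i)) => x j) (fun _ _ => rfl) (fun _ _ => rfl)
      (fun i => (g (v i)).1) s).symm
  rw [h3, h3]
  exact holds_bip (V j) fun i => (g (v i)).1 j

end Pool.Agent.Results.MP_35d0eb_al.NotEmbeddable
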